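import Mathlib
import Pool.Agent.Y969.QM4

/-!
# The Dirichlet divisor problem (`k = 2`) outside thin sets

The divisor version of part (1) of the theorem `ExceptionalSets` under MP_fb29e9_nt (Gauss circle problem);
the modules `Pool.Agent.Y969.*` of the starting files prove both versions, the divisor version has not been
handed in.
-/

namespace Pool.Agent.Results.MP_bc6037_nt.ExceptionalSets

/-- The error term `Δ₂(x) = ∑_{n ≤ x} d(n) - x log x - (2γ-1)x` of the Dirichlet divisor problem. -/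
noncomputable def Delta (x : ℝ) : ℝ :=
  (∑ j ∈ Finset.Icc 1 ⌊x⌋₊, (j.divisors.card : ℝ)) - x * Real.log x
    - (2 * Real.eulerMascheroniConstant - 1) * x

open Classical in
/-- The conjectured bound `|Δ₂(x)| ≤ x^{1/4+ε}` holds at all real `x` outside very few unit intervals: for every
`δ > 0` there is `c > 0` such that for all `0 < ε ≤ c` and all windows `[K, K + H)` with `H ≥ K^{1/2+δ}`, the
number of the integers `n` of the window for which `|Δ₂(y)| > y^{1/4+ε}` for at least one real `y ∈ [n, n+1)` is at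
most `C H^{1 - c ε log(1/ε)}`.  (This is `O(H^{1-Aε})` for every `A`, once `ε` is small in terms of `A` and `δ`.) -/
theorem result : ∀ δ : ℝ, 0 < δ → ∃ c : ℝ, 0 < c ∧ ∀ ε : ℝ, 0 < ε → ε ≤ c → ∃ C : ℝ, 0 < C ∧
    ∀ K H : ℕ, 1 ≤ K → (K : ℝ) ^ (1 / 2 + δ) ≤ H →
    (((Finset.Ico K (K + H)).filter (fun n : ℕ =>
        ∃ y : ℝ, (n : ℝ) ≤ y ∧ y < n + 1 ∧ y ^ (1 / 4 + ε) < |Delta y|)).card : ℝ)
      ≤ C * (H : ℝ) ^ (1 - c * (ε * Real.log (1 / ε))) :=
  Pool.Agent.Y969.SW.exc_divisor

end Pool.Agent.Results.MP_bc6037_nt.ExceptionalSets
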