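import Mathlib
import Pool.Agent.H383.OM.G

/-!
# The Dirichlet divisor problem (`k = 2`): large negative values

`Δ₂(x) = ∑_{n ≤ x} d(n) - x log x - (2γ-1)x`.  The best known lower bound for large *negative* values was
`Ω₋(x^{1/4} exp(c (log log x)^{1/4} (log log log x)^{-3/4}))` (Corrádi-Kátai); for large positive values
`Ω₊((x log x)^{1/4} (log log x)^c …)` (Hardy, Hafner) is much larger.  We prove
`Δ₂(x) = Ω₋((x log x)^{1/4} (log log log x)^{-3/4})`, with integers `x` in every interval `[√X, X]`.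

The theorem is the final theorem of the development `Pool.Agent.H383.OM` of the starting files, which has not
been handed in.
-/

open Filter Topology

namespace Pool.Agent.Results.MP_bc6037_nt.OmegaMinus

/-- The error term of the Dirichlet divisor problem. -/
noncomputable def Delta (x : ℝ) : ℝ :=
  (∑ j ∈ Finset.Icc 1 ⌊x⌋₊, (j.divisors.card : ℝ)) - x * Real.log x
    - (2 * Real.eulerMascheroniConstant - 1) * x

/-- There is `c > 0` such that for all large `X` there is an integer `n` with `√X ≤ n ≤ X` and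
`Δ₂(n) ≤ -c (n log n)^{1/4} (log log log n)^{-3/4}`. -/
theorem result : ∃ c : ℝ, 0 < c ∧ ∀ᶠ X : ℝ in atTop, ∃ n : ℕ, √X ≤ n ∧ (n : ℝ) ≤ X ∧
    Delta n ≤ -(c * ((n : ℝ) * Real.log n) ^ (1 / 4 : ℝ) *
      (Real.log (Real.log (Real.log n))) ^ (-(3 / 4) : ℝ)) := by
  obtain ⟨c, hc, h⟩ := Pool.Agent.H383.OM.omega_minus
  refine ⟨c, hc, h.mono fun X hX => ?_⟩
  obtain ⟨n, h1, h2, h3⟩ := hX
  refine ⟨n, h1, h2, ?_⟩
  have e : Delta (n : ℝ) = Pool.Agent.H387R2.Vor.Del (n : ℝ) := by
    unfold Delta Pool.Agent.H387R2.Vor.Del Pool.Agent.H387R2.Vor.Dsum Pool.Agent.H387R2.Vor.dv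
    rfl
  rw [e]
  refine h3.trans (le_of_eq ?_)
  ring

end Pool.Agent.Results.MP_bc6037_nt.OmegaMinus
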