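import Mathlib
import Pool.Agent.Y969.QM4

/-!
# The Dirichlet divisor problem (`k = 2`): moments of every order up to very large values, joint laws, primes

The divisor version of part (2) of the theorem `ExceptionalSets` under MP_fb29e9_nt (Gauss circle problem);
the modules `Pool.Agent.Y969.*` of the starting files prove both versions, the divisor version has not been
handed in.
-/

open Filter Topology MeasureTheory

namespace Pool.Agent.Results.MP_bc6037_nt.TruncatedMoments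

open Classical in
/-- Let `E(x) = Δ₂(x)/x^{1/4}`, `Δ₂(x) = ∑_{n ≤ x} d(n) - x log x - (2γ-1)x`, be the normalised error term of the
Dirichlet divisor problem.  There is a law `ν` on `ℝ` such that for all positive integers `a_1, …, a_k` and all
integers `b_1, …, b_k ≥ 0` there is a law `μ` on `ℝ^k` with all marginals equal to `ν`, with means `0`, covariances
`∫ x_i x_j dμ = (1/(4π²)) ∑_h d(uh) d(vh) (uvh²)^{-3/4}` if `a_i = dv`, `a_j = du`, `(u, v) = 1`, with finite moments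
of all orders, and such that for every `p` and `δ > 0` and every small `c > 0` the following holds for every
continuous `f` with `f(x) = O(1 + |x|^p)`, `e_n = (E(a_1 n + b_1), …, E(a_k n + b_k))`: the sum of `f(e_n)` over
the `n` with `max_i |E(a_i n + b_i)| ≤ n^c` of any window `N ≤ n < N + H` with `N^{1/2+δ} ≤ H ≤ N` is
`H ∫ f dμ + o(H)`, and over the primes `n ≤ N` it is `π(N) ∫ f dμ + o(π(N))`. -/
theorem result (E : ℝ → ℝ)
    (hE : ∀ x : ℝ, E x =
      ((∑ j ∈ Finset.Icc 1 ⌊x⌋₊, (j.divisors.card : ℝ)) - x * Real.log x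
        - (2 * Real.eulerMascheroniConstant - 1) * x) / x ^ (1 / 4 : ℝ)) :
    ∃ ν : ProbabilityMeasure ℝ, ∀ (k : ℕ) (a b : Fin k → ℕ), (∀ i, 0 < a i) →
      ∃ μ : ProbabilityMeasure (Fin k → ℝ),
        (∀ i, (μ : Measure (Fin k → ℝ)).map (fun x => x i) = (ν : Measure ℝ)) ∧
        (∀ i, ∫ x, x i ∂(μ : Measure (Fin k → ℝ)) = 0) ∧
        (∀ i j, ∀ u v d : ℕ, a i = d * v → a j = d * u → Nat.Coprime u v →
          ∫ x, x i * x j ∂(μ : Measure (Fin k → ℝ)) =
            (∑' h : ℕ, ((u * h).divisors.card : ℝ) * (v * h).divisors.card /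
              ((u : ℝ) * v * (h : ℝ) ^ 2) ^ (3 / 4 : ℝ)) / (4 * Real.pi ^ 2)) ∧
        ∀ p : ℝ, 0 < p →
          Integrable (fun x : Fin k → ℝ => ‖x‖ ^ p) (μ : Measure (Fin k → ℝ)) ∧
          ∀ δ : ℝ, 0 < δ → ∃ c₀ : ℝ, 0 < c₀ ∧ ∀ c : ℝ, 0 < c → c ≤ c₀ → ∀ f : (Fin k → ℝ) → ℝ, Continuous f →
            (∃ B : ℝ, ∀ x, |f x| ≤ B * (1 + ‖x‖ ^ p)) → ∀ η : ℝ, 0 < η → ∃ N₀ : ℕ, ∀ N : ℕ, N₀ ≤ N →
            (∀ H : ℕ, H ≤ N → (N : ℝ) ^ (1 / 2 + δ) ≤ H →
              |∑ n ∈ (Finset.Ico N (N + H)).filter (fun n : ℕ => ∀ i, |E ((a i : ℝ) * n + b i)| ≤ (n : ℝ) ^ c),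
                  f (fun i => E ((a i : ℝ) * n + b i)) - H * ∫ x, f x ∂(μ : Measure (Fin k → ℝ))| ≤ η * H) ∧
            |∑ n ∈ (Finset.Icc 1 N).filter (fun n : ℕ => n.Prime ∧ ∀ i, |E ((a i : ℝ) * n + b i)| ≤ (n : ℝ) ^ c),
                f (fun i => E ((a i : ℝ) * n + b i))
              - ((Finset.Icc 1 N).filter Nat.Prime).card * ∫ x, f x ∂(μ : Measure (Fin k → ℝ))|
              ≤ η * ((Finset.Icc 1 N).filter Nat.Prime).card := by
  have hEc : E = Pool.Agent.H425R3.JL.Edv := funext hE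
  subst hEc
  exact Pool.Agent.Y969.SW.div_trunc

end Pool.Agent.Results.MP_bc6037_nt.TruncatedMoments
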